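import Pool.Agent.W495.TA.Stms

/-!
# Project TA: push-forward along a supersingular elliptic curve
-/

set_option autoImplicit false

namespace Pool.Agent.W976.TA

open NumberField Pool.Agent.H204R3.CM Pool.Agent.W547.KB Pool.Agent.W547.LD Module
open Pool.Agent.W495.TA
open scoped TensorProduct

noncomputable section

variable {p : ℕ} [Fact p.Prime] {ν : PadicAlgCl p ≃+* ℂ}

theorem isFrob_pow {A : CMPair} {a : ℕ} {π : A.E} (h : IsFrobenius p ν A a π) (k : ℕ) :
    IsFrobenius p ν A (a * k) (π ^ k) where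
  integral := h.integral.pow k
  weil φ := by
    have h1 := h.weil φ
    rw [map_pow, norm_pow, ← pow_mul, mul_comm k 2, pow_mul, h1, ← pow_mul]
  shimuraTaniyama φ := by
    have h1 := h.shimuraTaniyama φ
    rw [map_pow, map_pow, norm_pow, ← pow_mul, mul_comm k, pow_mul, h1, ← pow_mul,
      mul_comm _ k, pow_mul, ← norm_pow, ← pow_mul]

/-- the product -/
def prodR (Y E : RedAV p ν) : RedAV p ν where
  X := Y.X.prod E.X
  a := Y.a * E.a
  pos := Nat.mul_pos Y.pos E.pos
  π := Y.X.pair E.X (fun i => Y.π i ^ E.a) (fun i => E.π i ^ Y.a)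
  frob := by
    rintro (i | i)
    · exact isFrob_pow (Y.frob i) E.a
    · have := isFrob_pow (E.frob i) Y.a
      rw [mul_comm] at this
      exact this

variable (Y E : RedAV p ν)

/-- inclusion -/
def hQ : Y.X.H1 →ₗ[ℚ] (prodR Y E).X.H1 where
  toFun x := Y.X.pair E.X x 0
  map_add' x y := by
    funext s
    rcases s with i | i
    · rfl
    · exact (add_zero _).symm
  map_smul' a x := by
    funext s
    rcases s with i | i
    · rfl
    · exact (smul_zero (A := (E.X.factor i).E) a).symm

/-- inclusion -/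
def hQ' : E.X.H1 →ₗ[ℚ] (prodR Y E).X.H1 where
  toFun x := Y.X.pair E.X 0 x
  map_add' x y := by
    funext s
    rcases s with i | i
    · exact (add_zero _).symm
    · rfl
  map_smul' a x := by
    funext s
    rcases s with i | i
    · exact (smul_zero (A := (Y.X.factor i).E) a).symm
    · rfl

/-- projection -/
def pQ : (prodR Y E).X.H1 →ₗ[ℚ] Y.X.H1 where
  toFun x := fun i => x (Sum.inl i)
  map_add' _ _ := rfl
  map_smul' _ _ := rfl

/-- projection -/
def pQ' : (prodR Y E).X.H1 →ₗ[ℚ] E.X.H1 where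
  toFun x := fun i => x (Sum.inr i)
  map_add' _ _ := rfl
  map_smul' _ _ := rfl

theorem pQ_hQ : (pQ Y E) ∘ₗ (hQ Y E) = LinearMap.id := rfl
theorem pQ_hQ' : (pQ Y E) ∘ₗ (hQ' Y E) = 0 := rfl
theorem pQ'_hQ : (pQ' Y E) ∘ₗ (hQ Y E) = 0 := rfl
theorem pQ'_hQ' : (pQ' Y E) ∘ₗ (hQ' Y E) = LinearMap.id := rfl

theorem hQ_pQ : (hQ Y E) ∘ₗ (pQ Y E) + (hQ' Y E) ∘ₗ (pQ' Y E) = LinearMap.id := by
  apply LinearMap.ext
  intro x
  funext s
  rcases s with i | i
  · exact add_zero _
  · exact zero_add _

theorem mulFrob_pow (s : ℕ) (x : Y.X.H1) : ((mulFrob Y) ^ s) x = fun i => Y.π i ^ s * x i := by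
  induction s with
  | zero =>
    funext i
    simp
  | succ s ih =>
    rw [pow_succ', Module.End.mul_apply, ih]
    funext i
    change Y.π i * (Y.π i ^ s * x i) = _
    ring

variable (Ω : Type) [Field Ω] [CharZero Ω]

theorem F_pow (s : ℕ) : (F Ω Y) ^ s = ((mulFrob Y) ^ s).baseChange Ω := by
  induction s with
  | zero =>
    rw [pow_zero, pow_zero]
    exact (LinearMap.baseChange_id).symm
  | succ s ih =>
    rw [pow_succ, pow_succ, ih]
    exact (LinearMap.baseChange_comp _ _).symm

theorem frobHom : IsFrobHom Ω Y (prodR Y E) ((hQ Y E).baseChange Ω) := by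
  refine ⟨E.a, 1, E.pos, one_pos, (mul_one _).symm, fun v => ?_⟩
  rw [F_pow, F_pow, pow_one]
  have h1 : (hQ Y E) ∘ₗ (mulFrob Y ^ E.a) = (mulFrob (prodR Y E)) ∘ₗ (hQ Y E) := by
    apply LinearMap.ext
    intro x
    rw [LinearMap.comp_apply, LinearMap.comp_apply, mulFrob_pow]
    funext s
    rcases s with i | i
    · rfl
    · exact (mul_zero _).symm
  have h2 := congrArg (LinearMap.baseChange Ω) h1
  rw [LinearMap.baseChange_comp, LinearMap.baseChange_comp] at h2
  exact LinearMap.congr_fun h2 v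

theorem frobHom' : IsFrobHom Ω E (prodR Y E) ((hQ' Y E).baseChange Ω) := by
  refine ⟨Y.a, 1, Y.pos, one_pos, ?_, fun v => ?_⟩
  · rw [mul_one]
    exact mul_comm _ _
  rw [F_pow, F_pow, pow_one]
  have h1 : (hQ' Y E) ∘ₗ (mulFrob E ^ Y.a) = (mulFrob (prodR Y E)) ∘ₗ (hQ' Y E) := by
    apply LinearMap.ext
    intro x
    rw [LinearMap.comp_apply, LinearMap.comp_apply, mulFrob_pow]
    funext s
    rcases s with i | i
    · exact (mul_zero _).symm
    · rfl
  have h2 := congrArg (LinearMap.baseChange Ω) h1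
  rw [LinearMap.baseChange_comp, LinearMap.baseChange_comp] at h2
  exact LinearMap.congr_fun h2 v

theorem bij : Function.Bijective (fun v : TM Ω Y × TM Ω E =>
    (hQ Y E).baseChange Ω v.1 + (hQ' Y E).baseChange Ω v.2) := by
  have e1 : ∀ v, (pQ Y E).baseChange Ω ((hQ Y E).baseChange Ω v) = v := by
    intro v
    have := congrArg (LinearMap.baseChange Ω) (pQ_hQ Y E)
    rw [LinearMap.baseChange_comp, LinearMap.baseChange_id] at this
    exact LinearMap.congr_fun this v
  have e2 : ∀ v, (pQ Y E).baseChange Ω ((hQ' Y E).baseChange Ω v) = 0 := by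
    intro v
    have := congrArg (LinearMap.baseChange Ω) (pQ_hQ' Y E)
    rw [LinearMap.baseChange_comp, LinearMap.baseChange_zero] at this
    exact LinearMap.congr_fun this v
  have e3 : ∀ v, (pQ' Y E).baseChange Ω ((hQ Y E).baseChange Ω v) = 0 := by
    intro v
    have := congrArg (LinearMap.baseChange Ω) (pQ'_hQ Y E)
    rw [LinearMap.baseChange_comp, LinearMap.baseChange_zero] at this
    exact LinearMap.congr_fun this v
  have e4 : ∀ v, (pQ' Y E).baseChange Ω ((hQ' Y E).baseChange Ω v) = v := by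
    intro v
    have := congrArg (LinearMap.baseChange Ω) (pQ'_hQ' Y E)
    rw [LinearMap.baseChange_comp, LinearMap.baseChange_id] at this
    exact LinearMap.congr_fun this v
  have e5 : ∀ z, (hQ Y E).baseChange Ω ((pQ Y E).baseChange Ω z) +
      (hQ' Y E).baseChange Ω ((pQ' Y E).baseChange Ω z) = z := by
    intro z
    have := congrArg (LinearMap.baseChange Ω) (hQ_pQ Y E)
    rw [LinearMap.baseChange_add, LinearMap.baseChange_comp, LinearMap.baseChange_comp,
      LinearMap.baseChange_id] at this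
    exact LinearMap.congr_fun this z
  rw [Function.bijective_iff_has_inverse]
  refine ⟨fun z => ((pQ Y E).baseChange Ω z, (pQ' Y E).baseChange Ω z), ?_, ?_⟩
  · rintro ⟨v, v'⟩
    simp only [map_add, e1, e2, e3, e4, add_zero, zero_add]
  · intro z
    exact e5 z

variable {Y E Ω} {L : Type} [Field L]

/-- weights -/
def inlW (w : Wt Y.X L) : Wt (prodR Y E).X L := ⟨Sum.inl w.1, w.2⟩
/-- weights -/
def inrW (w : Wt E.X L) : Wt (prodR Y E).X L := ⟨Sum.inr w.1, w.2⟩

variable (jO : L →+* Ω)

theorem co_tmul (w : Wt Y.X L) (a : Ω) (x : Y.X.H1) :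
    co jO w (a ⊗ₜ[ℚ] x) = a * jO (w.2 (x w.1)) := by
  unfold co
  rw [LinearMap.liftBaseChange_tmul, smul_eq_mul]
  rfl

theorem co_ll (w : Wt Y.X L) (v : TM Ω Y) :
    co jO (inlW (E := E) w) ((hQ Y E).baseChange Ω v) = co jO w v := by
  induction v using TensorProduct.induction_on with
  | zero => simp
  | tmul a x =>
    rw [LinearMap.baseChange_tmul, co_tmul, co_tmul]
    rfl
  | add x y hx hy => rw [map_add, map_add, map_add, hx, hy]

theorem co_rr (w : Wt E.X L) (v : TM Ω E) :
    co jO (inrW (Y := Y) w) ((hQ' Y E).baseChange Ω v) = co jO w v := by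
  induction v using TensorProduct.induction_on with
  | zero => simp
  | tmul a x =>
    rw [LinearMap.baseChange_tmul, co_tmul, co_tmul]
    rfl
  | add x y hx hy => rw [map_add, map_add, map_add, hx, hy]

theorem co_lr (w : Wt Y.X L) (v : TM Ω E) :
    co jO (inlW (E := E) w) ((hQ' Y E).baseChange Ω v) = 0 := by
  induction v using TensorProduct.induction_on with
  | zero => simp
  | tmul a x =>
    rw [LinearMap.baseChange_tmul, co_tmul]
    have : w.2 ((hQ' Y E x) (Sum.inl w.1)) = 0 := map_zero w.2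
    change a * jO (w.2 ((hQ' Y E x) (Sum.inl w.1))) = 0
    rw [this, map_zero, mul_zero]
  | add x y hx hy => rw [map_add, map_add, hx, hy, add_zero]

theorem co_rl (w : Wt E.X L) (v : TM Ω Y) :
    co jO (inrW (Y := Y) w) ((hQ Y E).baseChange Ω v) = 0 := by
  induction v using TensorProduct.induction_on with
  | zero => simp
  | tmul a x =>
    rw [LinearMap.baseChange_tmul, co_tmul]
    have : w.2 ((hQ Y E x) (Sum.inr w.1)) = 0 := map_zero w.2
    change a * jO (w.2 ((hQ Y E x) (Sum.inr w.1))) = 0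
    rw [this, map_zero, mul_zero]
  | add x y hx hy => rw [map_add, map_add, hx, hy, add_zero]

theorem monoO_det {κ : Type} [Fintype κ] [DecidableEq κ] (I : κ → Wt Y.X L) (v : κ → TM Ω Y) :
    monoO jO I v = Matrix.det (Matrix.of fun k l => co jO (I l) (v k)) := by
  unfold monoO
  rw [MultilinearMap.alternatization_apply, Matrix.det_apply]
  refine Finset.sum_congr rfl fun σ _ => ?_
  rfl

theorem push : S_push := by
  intro hbasis p _ ν Ω _ _ L _ _ _ _ j jO E hE w hw κ _ t hA _ _ Y hY I hI
  obtain ⟨e, he1, he2⟩ := hbasis p ν Ω L j jO E hE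
  have hbig : Big (prodR Y E).X j := by
    rintro (i | i) ψ
    · exact hY i ψ
    · exact hE i ψ
  have hf := hA (prodR Y E) hbig (Sum.elim (fun k => inlW (I k)) (fun k => inrW (w k))) (by
    rintro (k | k)
    · exact hI k
    · exact hw k)
  refine Alg.push ((hQ Y E).baseChange Ω) ((hQ' Y E).baseChange Ω) (frobHom Y E Ω)
    (frobHom' Y E Ω) (bij Y E Ω) (e.reindex w.symm) _ hf _ fun v => ?_
  rw [monoO_det, monoO_det]
  have h1 : (Matrix.of fun k l => co jO
      (Sum.elim (fun k => inlW (I k)) (fun k => inrW (w k)) l)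
      (Sum.elim (fun k => (hQ Y E).baseChange Ω (v k))
        (fun k => (hQ' Y E).baseChange Ω ((e.reindex w.symm) k)) k)) =
      Matrix.fromBlocks (Matrix.of fun k l => co jO (I l) (v k)) 0 0 1 := by
    ext k l
    rcases k with k | k <;> rcases l with l | l
    · exact co_ll jO (I l) (v k)
    · exact co_rl jO (w l) (v k)
    · exact co_lr jO (I l) _
    · simp only [Matrix.of_apply, Sum.elim_inr, Matrix.fromBlocks_apply₂₂]
      rw [co_rr, Basis.reindex_apply, Equiv.symm_symm]
      by_cases hkl : k = l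
      · subst hkl
        rw [he1, Matrix.one_apply_eq]
      · rw [he2 _ _ (fun h => hkl (w.injective h).symm), Matrix.one_apply_ne hkl]
  rw [h1, Matrix.det_fromBlocks_zero₂₁, Matrix.det_one, mul_one]

end

end Pool.Agent.W976.TA
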